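import Mathlib
import Pool.Agent.H31.Spec2

set_option autoImplicit false
open Matrix Polynomial Finset

namespace Pool.Agent.Results.MP_87d29b_co.Counter

variable {n : ℕ} (G : SimpleGraph (Fin n)) [DecidableRel G.Adj]

noncomputable def ip (f g : ℝ[X]) : ℝ :=
  (aeval (G.adjMatrix ℝ) f * aeval (G.adjMatrix ℝ) g).trace / n

/-- The number of distinct adjacency eigenvalues minus one. -/
noncomputable def dd : ℕ := (spectrum ℝ (G.adjMatrix ℝ)).ncard - 1

/-- p 0, ..., p d are the predistance polynomials. -/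
def Predist (p : ℕ → ℝ[X]) : Prop :=
  (∀ i ≤ dd G, (p i).degree = i) ∧ (∀ i ≤ dd G, ∀ j ≤ dd G, i ≠ j → ip G (p i) (p j) = 0) ∧
    ∀ i ≤ dd G, ip G (p i) (p i) = (p i).eval (sSup (spectrum ℝ (G.adjMatrix ℝ)))

def WalkRegular : Prop :=
  ∀ (l : ℕ) (x y : Fin n),
    {p : G.Walk x x | p.length = l}.ncard = {p : G.Walk y y | p.length = l}.ncard

def H : SimpleGraph (Fin 6) where
  Adj i j := j - i = 2 ∨ j - i = 3 ∨ j - i = 4
  symm := ⟨by decide⟩
  loopless := ⟨by decide⟩

instance : DecidableRel H.Adj := fun i j => by unfold H; infer_instance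

def P : Matrix (Fin 6) (Fin 6) ℤ :=
  !![1, 1, 1, 1, 1, 1; 1, -1, -1, 1, 1, -1; 1, 1, 0, -2, 0, -2;
     1, -1, 1, 1, -1, -1; 1, 1, -1, 1, -1, 1; 1, -1, 0, -2, 0, 2]

theorem roots : (H.adjMatrix ℝ).charpoly.roots = {3, 1, 0, 0, -2, -2} := by
  rw [H31.Spec.adj_cast, H31.Spec.roots_of_eig (P := P) (Q := Pᵀ) (w := ![6, 6, 4, 12, 4, 12])
    (d := ![3, 1, 0, 0, -2, -2]) (by decide) (by decide +kernel) (by decide +kernel)]
  simp [Fin.univ_succ]

theorem spec : spectrum ℝ (H.adjMatrix ℝ) = ({3, 1, 0, -2} : Finset ℝ) := by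
  rw [H31.Spec.spec_eq, roots]; ext; simp

theorem wr : WalkRegular H := by
  intro l x y
  have h (z : Fin 6) := H.adjMatrix_pow_apply_eq_card_walk (α := ℕ) l z z
  have e : (H.adjMatrix ℕ).submatrix (Equiv.addRight (y - x)) (Equiv.addRight (y - x)) =
      H.adjMatrix ℕ := by revert x y; decide +kernel
  have e2 : ∀ l, (H.adjMatrix ℕ ^ l).submatrix (Equiv.addRight (y - x)) (Equiv.addRight (y - x)) =
      H.adjMatrix ℕ ^ l := by
    intro l
    induction l with
    | zero => rw [pow_zero, submatrix_one_equiv]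
    | succ l ih => rw [pow_succ, ← submatrix_mul_equiv (e₂ := Equiv.addRight (y - x)), ih, e]
  have e3 := congrFun (congrFun (e2 l) x) x
  simp only [submatrix_apply, Equiv.coe_addRight, add_sub_cancel, h] at e3
  simpa [← Nat.card_eq_fintype_card] using e3.symm

noncomputable def p : ℕ → ℝ[X]
  | 0 => 1
  | 1 => X
  | 2 => C (6 / 13) * X ^ 2 - C (4 / 13) * X - C (18 / 13)
  | _ => C (1 / 5) * X ^ 3 - C (17 / 65) * X ^ 2 - C (71 / 65) * X + C (5 / 13)

theorem result : ¬ ∀ (n k : ℕ) (G : SimpleGraph (Fin n)) [DecidableRel G.Adj] (p : ℕ → ℝ[X]),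
    G.Connected → WalkRegular G → G.IsRegularOfDegree k → G.diam < dd G → Predist G p →
    ∀ x, (({y | G.dist x y = G.diam} : Set (Fin n)).ncard : ℝ) ≤ (p (dd G)).eval (k : ℝ) := by
  intro h
  have d3 : dd H = 3 := by
    rw [dd, spec, Set.ncard_coe_finset]
    norm_num [card_insert_of_notMem]
  have e2 : ∀ u v : Fin 6, u ≠ v → ¬ H.Adj u v → H.edist u v = 2 := fun u v a b =>
    SimpleGraph.edist_eq_two_iff.mpr ⟨a, b, by
      simp only [Set.Nonempty, SimpleGraph.mem_commonNeighbors]; revert u v; decide⟩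
  have d2 : H.diam = 2 := by
    have : H.ediam = 2 := le_antisymm (SimpleGraph.ediam_le_of_edist_le fun u v => by
      by_cases c : H.Adj u v ∨ u = v
      · exact (SimpleGraph.edist_le_one_iff_adj_or_eq.mpr c).trans one_le_two
      · exact (e2 u v (by tauto) (by tauto)).le)
      (e2 0 1 (by decide) (by decide) ▸ SimpleGraph.edist_le_ediam)
    rw [SimpleGraph.diam, this]; rfl
  have s3 : sSup (spectrum ℝ (H.adjMatrix ℝ)) = 3 := by
    refine IsGreatest.csSup_eq ⟨by simp [spec], fun x hx => ?_⟩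
    simp [spec] at hx
    rcases hx with rfl | rfl | rfl | rfl <;> norm_num
  have i1 : ∀ f g, ip H f g = (f.eval 3 * g.eval 3 + f.eval 1 * g.eval 1 +
      2 * (f.eval 0 * g.eval 0) + 2 * (f.eval (-2) * g.eval (-2))) / 6 := fun f g => by
    rw [ip, ← map_mul, H31.Spec.tr_aeval (H31.Spec.herm H), roots]; simp; ring
  have := h 6 3 H p (by decide +kernel) wr (by unfold SimpleGraph.IsRegularOfDegree; decide) (by omega)
    ⟨fun i hi => ?_, fun i hi j hj hij => ?_, fun i hi => ?_⟩ 0
  · have s : ({1, 5} : Finset (Fin 6)) ⊆ {y | H.dist 0 y = H.diam}.toFinset := by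
      intro y hy
      have : y ≠ 0 ∧ ¬ H.Adj 0 y := by revert y; decide
      simp [d2, SimpleGraph.dist, e2 0 y this.1.symm this.2]
    have s2 : (2 : ℝ) ≤ ({y | H.dist 0 y = H.diam} : Set (Fin 6)).ncard := by
      rw [Set.ncard_eq_toFinset_card']; exact_mod_cast card_le_card s
    rw [d3] at this
    simp [p] at this
    linarith
  · rw [d3] at hi
    interval_cases i <;> simp only [p] <;> compute_degree!
  · rw [d3] at hi hj
    interval_cases i <;> interval_cases j <;> first | exact absurd rfl hij | (simp [i1, p]; try norm_num)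
  · rw [d3] at hi
    interval_cases i <;> simp [i1, p, s3] <;> norm_num

end Pool.Agent.Results.MP_87d29b_co.Counter
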